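import Mathlib

/-!
# Orientations of generalized Mycielski graphs of odd cycles
-/

set_option autoImplicit false

namespace Pool.Agent.Results.MP_118fda_co.AlternatingOrientation

/-- The generalized Mycielski graph `M_r(G)`; the vertex `(u, i)` of level `i ∈ {1, …, r}` is
`some (u, i - 1)` and `z` is `none`. -/
def genMyc {α : Type} (G : SimpleGraph α) (r : ℕ) : SimpleGraph (Option (α × Fin r)) where
  Adj x y := match x, y with
    | some (u, i), some (v, j) =>
        G.Adj u v ∧ ((i.val = 0 ∧ j.val = 0) ∨ i.val + 1 = j.val ∨ j.val + 1 = i.val)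
    | some (_, i), none => i.val + 1 = r
    | none, some (_, i) => i.val + 1 = r
    | none, none => False
  symm := ⟨by
    rintro (_ | ⟨u, i⟩) (_ | ⟨v, j⟩) h
    · exact h
    · exact h
    · exact h
    · exact ⟨h.1.symm, by rcases h.2 with h | h | h <;> tauto⟩⟩
  loopless := ⟨by
    rintro (_ | ⟨u, i⟩) h
    · exact h
    · exact h.1.ne rfl⟩

/-- A cycle of length `n` in `G`, as an injective closed sequence of vertices. -/
structure Cyc {V : Type} (G : SimpleGraph V) (n : ℕ) where
  c : ZMod n → V
  three_le : 3 ≤ n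
  inj : Function.Injective c
  adj : ∀ i : ZMod n, G.Adj (c i) (c (i + 1))

/-- `D` is an orientation of `G`: every edge gets exactly one of its two directions. -/
def IsOrientation {V : Type} (G : SimpleGraph V) (D : V → V → Prop) : Prop :=
  ∀ x y, G.Adj x y → (D x y ↔ ¬ D y x)

/-- The `i`-th vertex of the cycle is a source in the cycle. -/
def IsSource {V : Type} {G : SimpleGraph V} {n : ℕ} (D : V → V → Prop) (C : Cyc G n)
    (i : ZMod n) : Prop := D (C.c i) (C.c (i + 1)) ∧ D (C.c i) (C.c (i - 1))

/-- The `i`-th vertex of the cycle is a sink in the cycle. -/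
def IsSink {V : Type} {G : SimpleGraph V} {n : ℕ} (D : V → V → Prop) (C : Cyc G n)
    (i : ZMod n) : Prop := D (C.c (i + 1)) (C.c i) ∧ D (C.c (i - 1)) (C.c i)

/-- At most one vertex of the cycle is neither a source nor a sink. -/
def Alternating {V : Type} {G : SimpleGraph V} {n : ℕ} (D : V → V → Prop) (C : Cyc G n) : Prop :=
  ∀ i j : ZMod n, ¬ IsSource D C i → ¬ IsSink D C i → ¬ IsSource D C j → ¬ IsSink D C j → i = j

/-- `C` is a shortest odd cycle. -/
def IsShortestOdd {V : Type} {G : SimpleGraph V} {n : ℕ} (_C : Cyc G n) : Prop :=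
  Odd n ∧ ∀ m : ℕ, Odd m → Nonempty (Cyc G m) → n ≤ m

/-! ### From colourings to orientations -/

section general

variable {V : Type} {G : SimpleGraph V} {n : ℕ}

/-- At most one edge of `C` is monochromatic. -/
def Good (χ : V → Bool) (C : Cyc G n) : Prop :=
  ∀ i j : ZMod n, χ (C.c i) = χ (C.c (i + 1)) → χ (C.c j) = χ (C.c (j + 1)) → i = j

def ori (χ : V → Bool) (e : V → ℕ) (x y : V) : Prop :=
  (χ x = false ∧ χ y = true) ∨ (χ x = χ y ∧ e x < e y)

lemma ori_isOrientation (χ : V → Bool) (e : V → ℕ) (he : Function.Injective e) :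
    IsOrientation G (ori χ e) := by
  intro x y h
  have hne : e x ≠ e y := fun h' => h.ne (he h')
  unfold ori
  rcases hx : χ x <;> rcases hy : χ y <;> simp <;> omega

lemma alternating_of_good (χ : V → Bool) (e : V → ℕ) (he : Function.Injective e) (C : Cyc G n)
    (h : Good χ C) : Alternating (ori χ e) C := by
  have key : ∀ i, ¬ IsSource (ori χ e) C i → ¬ IsSink (ori χ e) C i →
      χ (C.c i) = χ (C.c (i + 1)) ∨ χ (C.c (i - 1)) = χ (C.c i) := by
    intro i h1 h2
    by_contra hcon
    rw [not_or] at hcon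
    unfold IsSource IsSink ori at *
    rcases ha : χ (C.c i) <;> rcases hb : χ (C.c (i + 1)) <;> rcases hc : χ (C.c (i - 1)) <;>
      simp_all
  have hs : ∀ i : ZMod n, i - 1 + 1 = i := fun i => by ring
  have ht : ∀ i : ZMod n, i + 1 - 1 = i := fun i => by ring
  have h3 := C.three_le
  have hne1 : ∀ i : ZMod n, i ≠ i + 1 := fun i h' => by
    have := C.adj i
    rw [← h'] at this
    exact this.ne rfl
  have hne2 : ∀ i : ZMod n, i - 1 ≠ i + 1 := fun i h' => by
    have : (2 : ZMod n) = 0 := by
      have := congrArg (fun x => x - i + 1) h'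
      ring_nf at this
      exact this.symm
    have h2 : ((2 : ℕ) : ZMod n) = 0 := by exact_mod_cast this
    rw [ZMod.natCast_eq_zero_iff] at h2
    have := Nat.le_of_dvd (by norm_num) h2
    omega
  -- the two endpoints of a monochromatic edge are not both exceptional
  have main : ∀ m : ZMod n, χ (C.c m) = χ (C.c (m + 1)) →
      ¬ IsSource (ori χ e) C m → ¬ IsSink (ori χ e) C m →
      ¬ IsSource (ori χ e) C (m + 1) → ¬ IsSink (ori χ e) C (m + 1) → False := by
    intro m hm a1 a2 a3 a4
    have b1 : χ (C.c (m - 1)) ≠ χ (C.c m) := by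
      intro hh
      have := h (m - 1) m (by rw [hs]; exact hh) hm
      apply hne1 (m - 1)
      rw [hs]; exact this
    have b2 : χ (C.c (m + 1)) ≠ χ (C.c (m + 1 + 1)) := by
      intro hh
      exact hne1 m (h m (m + 1) hm hh)
    have hne : e (C.c m) ≠ e (C.c (m + 1)) := fun h' => (C.adj m).ne (he h')
    unfold IsSource at a1 a3
    unfold IsSink at a2 a4
    rw [ht] at a3 a4
    have flip : ∀ b : Bool, b ≠ true → b = false := fun b hb => by simpa using hb
    have flip' : ∀ b : Bool, b ≠ false → b = true := fun b hb => by simpa using hb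
    rcases lt_or_gt_of_ne hne with hlt | hlt
    · have he' : ori χ e (C.c m) (C.c (m + 1)) := Or.inr ⟨hm, hlt⟩
      rcases ha : χ (C.c m) with _ | _
      · exact a1 ⟨he', Or.inl ⟨ha, flip' _ (ha ▸ b1)⟩⟩
      · exact a4 ⟨Or.inl ⟨flip _ (fun h' => b2 (hm ▸ ha.trans h'.symm)), hm ▸ ha⟩, he'⟩
    · have he' : ori χ e (C.c (m + 1)) (C.c m) := Or.inr ⟨hm.symm, hlt⟩
      rcases ha : χ (C.c m) with _ | _
      · exact a3 ⟨Or.inl ⟨hm ▸ ha, flip' _ (fun h' => b2 (hm ▸ ha.trans h'.symm))⟩, he'⟩
      · exact a2 ⟨he', Or.inl ⟨flip _ (ha ▸ b1), ha⟩⟩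
  intro i j hi1 hi2 hj1 hj2
  by_contra hij
  rcases key i hi1 hi2 with hi | hi <;> rcases key j hj1 hj2 with hj | hj
  · exact hij (h i j hi hj)
  · have := h i (j - 1) hi (by rw [hs]; exact hj)
    subst this
    apply main (j - 1) hi hi1 hi2 <;> rw [hs] <;> assumption
  · have := h (i - 1) j (by rw [hs]; exact hi) hj
    subst this
    apply main (i - 1) hj hj1 hj2 <;> rw [hs] <;> assumption
  · have := h (i - 1) (j - 1) (by rw [hs]; exact hi) (by rw [hs]; exact hj)
    apply hij
    have := congrArg (fun x => x + 1) this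
    simpa [hs] using this

/-- rotation -/
def Cyc.rot (C : Cyc G n) (a : ZMod n) : Cyc G n where
  c i := C.c (i + a)
  three_le := C.three_le
  inj := fun i j h => by simpa using C.inj h
  adj i := by
    have := C.adj (i + a)
    have e : i + 1 + a = i + a + 1 := by ring
    rw [e]; exact this

/-- reflection -/
def Cyc.refl (C : Cyc G n) : Cyc G n where
  c i := C.c (-i)
  three_le := C.three_le
  inj := fun i j h => by simpa using C.inj h
  adj i := by
    have := C.adj (-(i + 1))
    have e : -(i + 1) + 1 = -i := by ring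
    rw [e] at this
    exact this.symm

lemma good_of_rot (χ : V → Bool) (C : Cyc G n) (a : ZMod n) (h : Good χ (C.rot a)) :
    Good χ C := by
  intro i j hi hj
  have := h (i - a) (j - a) (by
    show χ (C.c (i - a + a)) = χ (C.c (i - a + 1 + a))
    have e1 : i - a + a = i := by ring
    have e2 : i - a + 1 + a = i + 1 := by ring
    rw [e1, e2]; exact hi) (by
    show χ (C.c (j - a + a)) = χ (C.c (j - a + 1 + a))
    have e1 : j - a + a = j := by ring
    have e2 : j - a + 1 + a = j + 1 := by ring
    rw [e1, e2]; exact hj)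
  simpa using this

lemma good_of_refl (χ : V → Bool) (C : Cyc G n) (h : Good χ C.refl) : Good χ C := by
  intro i j hi hj
  have := h (-(i + 1)) (-(j + 1)) (by
    show χ (C.c (- -(i + 1))) = χ (C.c (-(-(i + 1) + 1)))
    have e1 : - -(i + 1) = i + 1 := by ring
    have e2 : -(-(i + 1) + 1) = i := by ring
    rw [e1, e2]; exact hi.symm) (by
    show χ (C.c (- -(j + 1))) = χ (C.c (-(-(j + 1) + 1)))
    have e1 : - -(j + 1) = j + 1 := by ring
    have e2 : -(-(j + 1) + 1) = j := by ring
    rw [e1, e2]; exact hj.symm)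
  simpa using this

end general

/-! ### Levels -/

/-- the level of a vertex; `z` gets level `r + 1` -/
def lev {α : Type} {r : ℕ} : Option (α × Fin r) → ℕ
  | none => r + 1
  | some (_, i) => i.val + 1

lemma lev_step {α : Type} {G : SimpleGraph α} {r : ℕ} {x y : Option (α × Fin r)}
    (h : (genMyc G r).Adj x y) :
    lev x = lev y + 1 ∨ lev y = lev x + 1 ∨ (lev x = 1 ∧ lev y = 1) := by
  rcases x with _ | ⟨u, i⟩ <;> rcases y with _ | ⟨v, j⟩
  · exact absurd h (by simp [genMyc])
  · have h' : j.val + 1 = r := h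
    left; show r + 1 = j.val + 1 + 1; omega
  · have h' : i.val + 1 = r := h
    right; left; show r + 1 = i.val + 1 + 1; omega
  · have h' : (i.val = 0 ∧ j.val = 0) ∨ i.val + 1 = j.val ∨ j.val + 1 = i.val := h.2
    show i.val + 1 = j.val + 1 + 1 ∨ j.val + 1 = i.val + 1 + 1 ∨ (i.val + 1 = 1 ∧ j.val + 1 = 1)
    omega

open Classical in
/-- the colouring defined by a set of vertices and the parity of the level -/
noncomputable def col {α : Type} {r : ℕ} (s : Option (α × Fin r) → Prop)
    (x : Option (α × Fin r)) : Bool := decide (lev x % 2 = 1 ↔ s x)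

lemma col_eq {α : Type} {r : ℕ} (s : Option (α × Fin r) → Prop) (x y : Option (α × Fin r)) :
    col s x = col s y ↔ ((lev x % 2 = 1 ↔ s x) ↔ (lev y % 2 = 1 ↔ s y)) := by
  unfold col
  rw [decide_eq_decide]

/-- Odd cycles through `z` have length at least `2r + 1`. -/
lemma typeA_len {α : Type} {G : SimpleGraph α} {r n : ℕ} (C : Cyc (genMyc G r) n)
    (hn : Odd n) (h0 : C.c 0 = none) : 2 * r + 1 ≤ n := by
  have h3 := C.three_le
  have : NeZero n := ⟨by omega⟩
  set X : ℕ → Option (α × Fin r) := fun t => C.c (t : ZMod n) with hX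
  set f : ℕ → ℕ := fun t => lev (X t) with hf
  have hadj : ∀ t : ℕ, (genMyc G r).Adj (X t) (X (t + 1)) := by
    intro t
    have := C.adj (t : ZMod n)
    simpa [hX] using this
  have hstep : ∀ t, f t = f (t + 1) + 1 ∨ f (t + 1) = f t + 1 ∨ (f t = 1 ∧ f (t + 1) = 1) :=
    fun t => lev_step (hadj t)
  have hf0 : f 0 = r + 1 := by simp [hf, hX, h0, lev]
  have hfn : f n = r + 1 := by simp [hf, hX, h0, lev]
  have claim1 : ∃ t, t < n ∧ f t = f (t + 1) := by
    by_contra hcon
    push Not at hcon
    have hpar : ∀ t, t ≤ n → (f t + t) % 2 = (r + 1) % 2 := by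
      intro t
      induction t with
      | zero => intro _; rw [hf0]
      | succ t ih =>
        intro ht
        have h1 := ih (by omega)
        have h2 := hcon t (by omega)
        have h3 := hstep t
        omega
    have := hpar n (le_refl _)
    rw [hfn] at this
    obtain ⟨m, hm⟩ := hn
    omega
  obtain ⟨t0, ht0, hft0⟩ := claim1
  have hlow : ∀ t, r + 1 ≤ f t + t := by
    intro t
    induction t with
    | zero => omega
    | succ t ih => have := hstep t; omega
  have hlow2 : ∀ d t, t + d = n → r + 1 ≤ f t + d := by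
    intro d
    induction d with
    | zero => intro t ht; simp at ht; rw [ht, hfn]
    | succ d ih =>
      intro t ht
      have h1 := ih (t + 1) (by omega)
      have := hstep t
      omega
  have e0 := hstep t0
  have e1 := hlow t0
  have e2 := hlow2 (n - (t0 + 1)) (t0 + 1) (by omega)
  omega

/-- Odd cycles through `z` of length at most `2r + 1`. -/
lemma typeA {α : Type} {G : SimpleGraph α} {r n : ℕ} (C : Cyc (genMyc G r) n)
    (hn : Odd n) (hle : n ≤ 2 * r + 1) (h0 : C.c 0 = none) (s : Option (α × Fin r) → Prop)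
    (P1 : ∀ x y, (genMyc G r).Adj x y → lev y = lev x + 1 → s x → s y)
    (P2 : ∀ x y, (genMyc G r).Adj x y → lev x = 1 → lev y = 1 → s x ∨ s y) :
    Good (col s) C := by
  have h3 := C.three_le
  have : NeZero n := ⟨by omega⟩
  set X : ℕ → Option (α × Fin r) := fun t => C.c (t : ZMod n) with hX
  set f : ℕ → ℕ := fun t => lev (X t) with hf
  have hadj : ∀ t : ℕ, (genMyc G r).Adj (X t) (X (t + 1)) := by
    intro t
    have := C.adj (t : ZMod n)
    simpa [hX] using this
  have hstep : ∀ t, f t = f (t + 1) + 1 ∨ f (t + 1) = f t + 1 ∨ (f t = 1 ∧ f (t + 1) = 1) :=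
    fun t => lev_step (hadj t)
  have hf0 : f 0 = r + 1 := by simp [hf, hX, h0, lev]
  have hfn : f n = r + 1 := by simp [hf, hX, h0, lev]
  have claim1 : ∃ t, t < n ∧ f t = f (t + 1) := by
    by_contra hcon
    push Not at hcon
    have hpar : ∀ t, t ≤ n → (f t + t) % 2 = (r + 1) % 2 := by
      intro t
      induction t with
      | zero => intro _; rw [hf0]
      | succ t ih =>
        intro ht
        have h1 := ih (by omega)
        have h2 := hcon t (by omega)
        have h3 := hstep t
        omega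
    have := hpar n (le_refl _)
    rw [hfn] at this
    obtain ⟨m, hm⟩ := hn
    omega
  obtain ⟨t0, ht0, hft0⟩ := claim1
  have hlow : ∀ t, r + 1 ≤ f t + t := by
    intro t
    induction t with
    | zero => omega
    | succ t ih => have := hstep t; omega
  have hlow2 : ∀ d t, t + d = n → r + 1 ≤ f t + d := by
    intro d
    induction d with
    | zero => intro t ht; simp at ht; rw [ht, hfn]
    | succ d ih =>
      intro t ht
      have h1 := ih (t + 1) (by omega)
      have := hstep t
      omega
  have e0 := hstep t0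
  have e1 := hlow t0
  have e2 := hlow2 (n - (t0 + 1)) (t0 + 1) (by omega)
  have ht0r : t0 = r := by omega
  have hn' : n = 2 * r + 1 := by omega
  subst ht0r
  have hup1 : ∀ d t, t + d = t0 → f t ≤ 1 + d := by
    intro d
    induction d with
    | zero => intro t ht; simp at ht; rw [ht]; omega
    | succ d ih =>
      intro t ht
      have h1 := ih (t + 1) (by omega)
      have := hstep t
      omega
  have hup2 : ∀ d, f (t0 + 1 + d) ≤ 1 + d := by
    intro d
    induction d with
    | zero => simp; omega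
    | succ d ih =>
      have := hstep (t0 + 1 + d)
      have e : t0 + 1 + (d + 1) = t0 + 1 + d + 1 := by ring
      rw [e]
      omega
  have hval1 : ∀ t, t ≤ t0 → f t = t0 + 1 - t := by
    intro t ht
    have h1 := hup1 (t0 - t) t (by omega)
    have h2 := hlow t
    omega
  have hval2 : ∀ t, t0 + 1 ≤ t → t ≤ n → f t = t - t0 := by
    intro t ht ht'
    have h1 := hup2 (t - (t0 + 1))
    have e : t0 + 1 + (t - (t0 + 1)) = t := by omega
    rw [e] at h1
    have h2 := hlow2 (n - t) t (by omega)
    omega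
  -- the lifted membership
  set σ : ℕ → Prop := fun t => (t ≤ t0 ∧ s (X t)) ∨ (t0 < t ∧ ¬ s (X t)) with hσ
  have hanti : ∀ t, t < n → σ (t + 1) → σ t := by
    intro t ht h
    rcases lt_trichotomy t t0 with h1 | h1 | h1
    · rcases h with ⟨-, h⟩ | ⟨h', -⟩
      · left
        refine ⟨h1.le, P1 _ _ (hadj t).symm ?_ h⟩
        show f t = f (t + 1) + 1
        rw [hval1 t (by omega), hval1 (t + 1) (by omega)]
        omega
      · omega
    · subst h1
      rcases h with ⟨h', -⟩ | ⟨-, h⟩
      · omega
      · left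
        refine ⟨le_refl _, ?_⟩
        rcases P2 _ _ (hadj t) (by show f t = 1; omega) (by show f (t + 1) = 1; omega) with h' | h'
        · exact h'
        · exact absurd h' h
    · rcases h with ⟨h', -⟩ | ⟨-, h⟩
      · omega
      · right
        refine ⟨h1, fun h' => h (P1 _ _ (hadj t) ?_ h')⟩
        show f (t + 1) = f t + 1
        rw [hval2 t (by omega) (by omega), hval2 (t + 1) (by omega) (by omega)]
        omega
  have hanti' : ∀ d t, t + d ≤ n → σ (t + d) → σ t := by
    intro d
    induction d with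
    | zero => intro t _ h; exact h
    | succ d ih =>
      intro t ht h
      exact ih t (by omega) (hanti _ (by omega) h)
  have hmono : ∀ t, t < n → col s (X t) = col s (X (t + 1)) → σ t ∧ ¬ σ (t + 1) := by
    intro t ht h
    rw [col_eq] at h
    have hf1 : lev (X t) = f t := rfl
    have hf2 : lev (X (t + 1)) = f (t + 1) := rfl
    rw [hf1, hf2] at h
    by_contra hcon
    have hiff : σ t ↔ σ (t + 1) := by
      constructor
      · intro h1
        by_contra h2
        exact hcon ⟨h1, h2⟩
      · exact hanti t ht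
    rcases lt_trichotomy t t0 with h1 | h1 | h1
    · rw [hval1 t (by omega), hval1 (t + 1) (by omega)] at h
      have a1 : σ t ↔ s (X t) := by
        constructor
        · rintro (⟨-, h'⟩ | ⟨h', -⟩)
          · exact h'
          · omega
        · intro h'; exact Or.inl ⟨by omega, h'⟩
      have a2 : σ (t + 1) ↔ s (X (t + 1)) := by
        constructor
        · rintro (⟨-, h'⟩ | ⟨h', -⟩)
          · exact h'
          · omega
        · intro h'; exact Or.inl ⟨by omega, h'⟩
      rw [a1, a2] at hiff
      by_cases hs : s (X t) <;> by_cases hs' : s (X (t + 1)) <;> simp [hs, hs'] at h hiff <;> omega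
    · subst h1
      rw [hval1 t (by omega), hval2 (t + 1) (by omega) (by omega)] at h
      have a1 : σ t ↔ s (X t) := by
        constructor
        · rintro (⟨-, h'⟩ | ⟨h', -⟩)
          · exact h'
          · omega
        · intro h'; exact Or.inl ⟨by omega, h'⟩
      have a2 : σ (t + 1) ↔ ¬ s (X (t + 1)) := by
        constructor
        · rintro (⟨h', -⟩ | ⟨-, h'⟩)
          · omega
          · exact h'
        · intro h'; exact Or.inr ⟨by omega, h'⟩
      rw [a1, a2] at hiff
      have e3 : t + 1 - t = 1 := by omega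
      rw [e3] at h
      by_cases hs : s (X t) <;> by_cases hs' : s (X (t + 1)) <;> simp [hs, hs'] at h hiff
    · rw [hval2 t (by omega) (by omega), hval2 (t + 1) (by omega) (by omega)] at h
      have a1 : σ t ↔ ¬ s (X t) := by
        constructor
        · rintro (⟨h', -⟩ | ⟨-, h'⟩)
          · omega
          · exact h'
        · intro h'; exact Or.inr ⟨by omega, h'⟩
      have a2 : σ (t + 1) ↔ ¬ s (X (t + 1)) := by
        constructor
        · rintro (⟨h', -⟩ | ⟨-, h'⟩)
          · omega
          · exact h'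
        · intro h'; exact Or.inr ⟨by omega, h'⟩
      rw [a1, a2] at hiff
      by_cases hs : s (X t) <;> by_cases hs' : s (X (t + 1)) <;> simp [hs, hs'] at h hiff <;> omega
  have huniq : ∀ t t', t < t' → t' < n → col s (X t) = col s (X (t + 1)) →
      col s (X t') = col s (X (t' + 1)) → False := by
    intro t t' h1 h2 h3 h4
    have b1 := hmono t (by omega) h3
    have b2 := hmono t' h2 h4
    apply b1.2
    apply hanti' (t' - (t + 1)) (t + 1) (by omega)
    have : t + 1 + (t' - (t + 1)) = t' := by omega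
    rw [this]
    exact b2.1
  intro i j hi hj
  have ei : ((i.val : ℕ) : ZMod n) = i := ZMod.natCast_zmod_val i
  have ej : ((j.val : ℕ) : ZMod n) = j := ZMod.natCast_zmod_val j
  have hi' : col s (X i.val) = col s (X (i.val + 1)) := by
    simp only [hX, Nat.cast_add, Nat.cast_one, ei]; exact hi
  have hj' : col s (X j.val) = col s (X (j.val + 1)) := by
    simp only [hX, Nat.cast_add, Nat.cast_one, ej]; exact hj
  rcases lt_trichotomy i.val j.val with h | h | h
  · exact (huniq _ _ h (ZMod.val_lt j) hi' hj').elim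
  · exact ZMod.val_injective n h
  · exact (huniq _ _ h (ZMod.val_lt i) hj' hi').elim

/-! ### Odd cycles -/

lemma sub_one {N : ℕ} (u v : Fin N) : (u - v).val = 1 ↔
    (v.val + 1 = u.val ∨ (u.val = 0 ∧ v.val + 1 = N ∧ 2 ≤ N)) := by
  have hu := u.isLt
  have hv := v.isLt
  rcases le_or_gt v u with h | h
  · rw [Fin.coe_sub_iff_le.mpr h]
    have : v.val ≤ u.val := h
    omega
  · rw [Fin.coe_sub_iff_lt.mpr h]
    have : u.val < v.val := h
    omega

lemma cg_adj {N : ℕ} {u v : Fin N} : (SimpleGraph.cycleGraph N).Adj u v ↔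
    (v.val + 1 = u.val ∨ (u.val = 0 ∧ v.val + 1 = N ∧ 2 ≤ N)) ∨
    (u.val + 1 = v.val ∨ (v.val = 0 ∧ u.val + 1 = N ∧ 2 ≤ N)) := by
  rw [SimpleGraph.cycleGraph_adj', sub_one, sub_one]

/-- the first coordinate of a vertex -/
def fst' {N r : ℕ} : Option (Fin N × Fin r) → ℕ
  | none => 0
  | some (u, _) => u.val

lemma step_B {N r : ℕ} {x y : Option (Fin N × Fin r)}
    (h : (genMyc (SimpleGraph.cycleGraph N) r).Adj x y) (hx : x ≠ none) (hy : y ≠ none) :
    ((fst' y : ℕ) : ZMod N) = (fst' x : ℕ) + 1 ∨ ((fst' x : ℕ) : ZMod N) = (fst' y : ℕ) + 1 := by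
  rcases x with _ | ⟨u, i⟩
  · exact absurd rfl hx
  rcases y with _ | ⟨v, j⟩
  · exact absurd rfl hy
  have h' := h.1
  rw [cg_adj] at h'
  show ((v.val : ℕ) : ZMod N) = (u.val : ℕ) + 1 ∨ ((u.val : ℕ) : ZMod N) = (v.val : ℕ) + 1
  rcases h' with (h' | ⟨h1, h2, -⟩) | (h' | ⟨h1, h2, -⟩)
  · right; rw [← h']; push_cast; rfl
  · right
    rw [h1]
    have : ((v.val + 1 : ℕ) : ZMod N) = 0 := by rw [h2, ZMod.natCast_self]
    push_cast at this
    rw [this]; simp
  · left; rw [← h']; push_cast; rfl
  · left
    rw [h1]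
    have : ((u.val + 1 : ℕ) : ZMod N) = 0 := by rw [h2, ZMod.natCast_self]
    push_cast at this
    rw [this]; simp

/-- Odd cycles of length at most `2k + 1` avoiding `z`. -/
lemma typeB {k r n : ℕ} (C : Cyc (genMyc (SimpleGraph.cycleGraph (2 * k + 1)) r) n)
    (hn : Odd n) (hle : n ≤ 2 * k + 1) (hnone : ∀ i, C.c i ≠ none) : n = 2 * k + 1 ∧
    ∀ χ : Option (Fin (2 * k + 1) × Fin r) → Bool,
      (∀ C' : Cyc (genMyc (SimpleGraph.cycleGraph (2 * k + 1)) r) (2 * k + 1),
      (∀ i, C'.c i ≠ none) → (∀ i, ((fst' (C'.c i) : ℕ) : ZMod (2 * k + 1)) = i) → Good χ C') →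
      Good χ C := by
  have h3 := C.three_le
  have : NeZero n := ⟨by omega⟩
  set a : ℕ → ZMod (2 * k + 1) := fun t => ((fst' (C.c (t : ZMod n)) : ℕ) : ZMod (2 * k + 1))
    with ha
  have hstep : ∀ t : ℕ, a (t + 1) = a t + 1 ∨ a t = a (t + 1) + 1 := by
    intro t
    have := step_B (C.adj (t : ZMod n)) (hnone _) (hnone _)
    simpa [ha] using this
  classical
  set b : ℕ → ℕ := fun t => if a (t + 1) = a t + 1 then 0 else 1 with hb
  have hb1 : ∀ t, b t ≤ 1 := by
    intro t; simp only [hb]; split_ifs <;> omega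
  have hsum : ∀ t : ℕ, a t = a 0 + (((t : ℤ) - 2 * ((∑ s ∈ Finset.range t, b s : ℕ) : ℤ) : ℤ) :
      ZMod (2 * k + 1)) := by
    intro t
    induction t with
    | zero => simp
    | succ t ih =>
      rw [Finset.sum_range_succ]
      by_cases h : a (t + 1) = a t + 1
      · have hbt : b t = 0 := by simp only [hb]; rw [if_pos h]
        rw [h, ih, hbt]
        push_cast
        ring
      · have hbt : b t = 1 := by simp only [hb]; rw [if_neg h]
        have h' : a (t + 1) = a t - 1 := by
          rcases hstep t with h1 | h1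
          · exact absurd h1 h
          · rw [h1]; ring
        rw [h', ih, hbt]
        push_cast
        ring
  set Q := ∑ s ∈ Finset.range n, b s with hQ
  have hQn : Q ≤ n := by
    calc Q ≤ ∑ s ∈ Finset.range n, 1 := Finset.sum_le_sum (fun s _ => hb1 s)
      _ = n := by simp
  have han : a n = a 0 := by simp [ha]
  have hdvd : ((2 * k + 1 : ℕ) : ℤ) ∣ ((n : ℤ) - 2 * (Q : ℤ)) := by
    rw [← ZMod.intCast_zmod_eq_zero_iff_dvd]
    have := hsum n
    rw [han] at this
    exact (left_eq_add.mp this)
  obtain ⟨m, hm⟩ := hn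
  obtain ⟨q, hq⟩ := hdvd
  have hq1 : q = 1 ∨ q = -1 := by
    have h1 : q ≠ 0 := by
      rintro rfl
      simp at hq
      omega
    have h2 : q < 2 := by
      by_contra hcon
      push Not at hcon
      have : ((2 * k + 1 : ℕ) : ℤ) * q ≥ ((2 * k + 1 : ℕ) : ℤ) * 2 := by
        apply mul_le_mul_of_nonneg_left hcon (by positivity)
      push_cast at this hq
      omega
    have h3 : -2 < q := by
      by_contra hcon
      push Not at hcon
      have : ((2 * k + 1 : ℕ) : ℤ) * q ≤ ((2 * k + 1 : ℕ) : ℤ) * (-2) := by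
        apply mul_le_mul_of_nonneg_left hcon (by positivity)
      push_cast at this hq
      omega
    omega
  have hn' : n = 2 * k + 1 := by
    rcases hq1 with h | h <;> rw [h] at hq <;> push_cast at hq <;> omega
  clear_value Q
  refine ⟨hn', ?_⟩
  intro χ H
  subst hn'
  -- finishing, once the direction is constant
  have finish : ∀ C' : Cyc (genMyc (SimpleGraph.cycleGraph (2 * k + 1)) r) (2 * k + 1),
      (∀ i, C'.c i ≠ none) → (∀ i, ((fst' (C'.c (i + 1)) : ℕ) : ZMod (2 * k + 1)) =
        (fst' (C'.c i) : ℕ) + 1) → Good χ C' := by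
    intro C' hN hs
    have hlin : ∀ t : ℕ, ((fst' (C'.c (t : ZMod (2 * k + 1))) : ℕ) : ZMod (2 * k + 1)) =
        (fst' (C'.c 0) : ℕ) + t := by
      intro t
      induction t with
      | zero => simp
      | succ t ih =>
        have := hs (t : ZMod (2 * k + 1))
        push_cast
        rw [this, ih]
        ring
    have hlin' : ∀ i : ZMod (2 * k + 1), ((fst' (C'.c i) : ℕ) : ZMod (2 * k + 1)) =
        (fst' (C'.c 0) : ℕ) + i := by
      intro i
      have := hlin i.val
      rwa [ZMod.natCast_zmod_val i] at this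
    apply good_of_rot χ C' (-((fst' (C'.c 0) : ℕ) : ZMod (2 * k + 1)))
    apply H
    · intro i; exact hN _
    · intro i
      show ((fst' (C'.c (i + _)) : ℕ) : ZMod (2 * k + 1)) = i
      rw [hlin' (i + _)]
      ring
  rcases hq1 with h | h
  · have hQ0 : Q = 0 := by rw [h] at hq; push_cast at hq; omega
    rw [hQ0] at hQ
    have hall : ∀ t < 2 * k + 1, a (t + 1) = a t + 1 := by
      intro t ht
      have := (Finset.sum_eq_zero_iff.mp hQ.symm) t (Finset.mem_range.mpr ht)
      by_contra hcon
      simp only [hb] at this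
      rw [if_neg hcon] at this
      omega
    apply finish C hnone
    intro i
    have := hall i.val (ZMod.val_lt i)
    simp only [ha] at this
    rw [ZMod.natCast_zmod_val i] at this
    push_cast at this
    rw [ZMod.natCast_zmod_val i] at this
    exact this
  · have hQn' : Q = 2 * k + 1 := by rw [h] at hq; push_cast at hq; omega
    have hall : ∀ t < 2 * k + 1, a t = a (t + 1) + 1 := by
      intro t ht
      rcases hstep t with h1 | h1
      · exfalso
        have hbt : b t = 0 := by simp only [hb]; rw [if_pos h1]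
        have : Q ≤ 2 * k := by
          rw [hQ, ← Finset.add_sum_erase _ _ (Finset.mem_range.mpr ht), hbt, zero_add]
          calc _ ≤ ∑ s ∈ (Finset.range (2 * k + 1)).erase t, 1 :=
                Finset.sum_le_sum (fun s _ => hb1 s)
            _ = 2 * k := by
                rw [Finset.sum_const, Finset.card_erase_of_mem (Finset.mem_range.mpr ht),
                  Finset.card_range]
                simp
        omega
      · exact h1
    apply good_of_refl
    apply finish
    · intro i; exact hnone _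
    · intro i
      have := hall (-(i + 1)).val (ZMod.val_lt _)
      simp only [ha] at this
      push_cast at this
      rw [ZMod.natCast_zmod_val (-(i + 1))] at this
      show ((fst' (C.c (-(i + 1))) : ℕ) : ZMod (2 * k + 1)) = (fst' (C.c (-i)) : ℕ) + 1
      rw [this]
      have e : -(i + 1) + 1 = -i := by ring
      rw [e]

/-! ### Existence of short odd cycles -/

lemma zmod_cases {n : ℕ} (hn : 1 ≤ n) (i : ZMod n) :
    (i.val + 1 < n ∧ (i + 1).val = i.val + 1) ∨ (i.val + 1 = n ∧ (i + 1).val = 0) := by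
  have : NeZero n := ⟨by omega⟩
  have h1 : (i + 1).val = (i.val + 1) % n := by
    conv_lhs => rw [← ZMod.natCast_zmod_val i]
    rw [← ZMod.val_natCast]
    push_cast
    rfl
  have h2 := ZMod.val_lt i
  rcases Nat.lt_or_ge (i.val + 1) n with h | h
  · left
    refine ⟨h, ?_⟩
    rw [h1, Nat.mod_eq_of_lt h]
  · right
    have h3 : i.val + 1 = n := by omega
    refine ⟨h3, ?_⟩
    rw [h1, h3, Nat.mod_self]

lemma cyc1 {k r : ℕ} (hk : 1 ≤ k) (hr : 1 ≤ r) :
    Nonempty (Cyc (genMyc (SimpleGraph.cycleGraph (2 * k + 1)) r) (2 * k + 1)) := by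
  refine ⟨⟨fun i => some (⟨i.val, ZMod.val_lt i⟩, ⟨0, by omega⟩), by omega, ?_, ?_⟩⟩
  · intro i j h
    simp only [Option.some.injEq, Prod.mk.injEq, Fin.mk.injEq, and_true] at h
    exact ZMod.val_injective _ h
  · intro i
    refine ⟨?_, Or.inl ⟨rfl, rfl⟩⟩
    rw [cg_adj]
    have := ZMod.val_lt i
    rcases zmod_cases (by omega) i with ⟨h1, h2⟩ | ⟨h1, h2⟩
    · right; left; exact h2.symm
    · right; right; exact ⟨h2, h1, by omega⟩

lemma cyc2 {k r : ℕ} (hr : 1 ≤ r) (hrk : r ≤ k) :
    Nonempty (Cyc (genMyc (SimpleGraph.cycleGraph (2 * k + 1)) r) (2 * r + 1)) := by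
  let X : ℕ → Option (Fin (2 * k + 1) × Fin r) := fun t =>
    if h : 1 ≤ t ∧ t ≤ 2 * r then
      some (⟨t - 1, by omega⟩, ⟨if t ≤ r then r - t else t - r - 1, by split_ifs <;> omega⟩)
    else none
  refine ⟨⟨fun i => X i.val, by omega, ?_, ?_⟩⟩
  · intro i j h
    have hi := ZMod.val_lt i
    have hj := ZMod.val_lt j
    apply ZMod.val_injective
    have hX0 : ∀ t, ¬ (1 ≤ t ∧ t ≤ 2 * r) → X t = none := by
      intro t ht; simp only [X]; rw [dif_neg ht]
    have hX1 : ∀ t, (ht : 1 ≤ t ∧ t ≤ 2 * r) → fst' (X t) = t - 1 ∧ X t ≠ none := by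
      intro t ht; simp only [X]; rw [dif_pos ht]; exact ⟨rfl, by simp⟩
    have h' : X i.val = X j.val := h
    by_cases h1 : 1 ≤ i.val ∧ i.val ≤ 2 * r <;> by_cases h2 : 1 ≤ j.val ∧ j.val ≤ 2 * r
    · have e1 := (hX1 _ h1).1
      have e2 := (hX1 _ h2).1
      rw [h', e2] at e1
      omega
    · rw [hX0 _ h2] at h'
      exact absurd h' (hX1 _ h1).2
    · rw [hX0 _ h1] at h'
      exact absurd h'.symm (hX1 _ h2).2
    · omega
  · intro i
    have hi := ZMod.val_lt i
    rcases zmod_cases (by omega) i with ⟨h1, h2⟩ | ⟨h1, h2⟩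
    · rw [h2]
      rcases Nat.eq_zero_or_pos i.val with h0 | h0
      · have e1 : X i.val = none := by simp only [X]; rw [dif_neg (by omega)]
        have e2 : X (i.val + 1) = some (⟨i.val, by omega⟩, ⟨r - 1, by omega⟩) := by
          simp only [X]
          rw [dif_pos (by omega)]
          simp only [Option.some.injEq, Prod.mk.injEq, Fin.mk.injEq]
          rw [if_pos (by omega)]
          omega
        rw [e1, e2]
        show r - 1 + 1 = r
        omega
      · have e1 : X i.val = some (⟨i.val - 1, by omega⟩,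
            ⟨if i.val ≤ r then r - i.val else i.val - r - 1, by split_ifs <;> omega⟩) := by
          simp only [X]
          rw [dif_pos (by omega)]
        have e2 : X (i.val + 1) = some (⟨i.val + 1 - 1, by omega⟩,
            ⟨if i.val + 1 ≤ r then r - (i.val + 1) else i.val + 1 - r - 1,
              by split_ifs <;> omega⟩) := by
          simp only [X]
          rw [dif_pos (by omega)]
        rw [e1, e2]
        refine ⟨?_, ?_⟩
        · rw [cg_adj]
          right; left
          show i.val - 1 + 1 = i.val + 1 - 1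
          omega
        · show ((if i.val ≤ r then r - i.val else i.val - r - 1) = 0 ∧
            (if i.val + 1 ≤ r then r - (i.val + 1) else i.val + 1 - r - 1) = 0) ∨
            (if i.val ≤ r then r - i.val else i.val - r - 1) + 1 =
              (if i.val + 1 ≤ r then r - (i.val + 1) else i.val + 1 - r - 1) ∨
            (if i.val + 1 ≤ r then r - (i.val + 1) else i.val + 1 - r - 1) + 1 =
              (if i.val ≤ r then r - i.val else i.val - r - 1)
          split_ifs <;> omega
    · rw [h2]
      have e1 : X 0 = none := by simp only [X]; rw [dif_neg (by omega)]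
      have e2 : X i.val = some (⟨i.val - 1, by omega⟩, ⟨r - 1, by omega⟩) := by
        simp only [X]
        rw [dif_pos (by omega)]
        simp only [Option.some.injEq, Prod.mk.injEq, Fin.mk.injEq, true_and]
        rw [if_neg (by omega)]
        omega
      rw [e1, e2]
      show r - 1 + 1 = r
      omega

/-! ### The balanced case `r = k` -/

/-- The vertices above a tilted great circle. -/
def sN (k : ℕ) : Option (Fin (2 * k + 1) × Fin k) → Prop
  | none => True
  | some (u, i) => ((u.val + i.val + 1 + k) % 2 = 0 ∧ k < u.val + i.val + 1) ∨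
      ((u.val + i.val + 1 + k) % 2 = 1 ∧ u.val ≤ i.val + 1 + k)

def gN (k : ℕ) : Option (Fin (2 * k + 1) × Fin k) → Prop
  | none => True
  | some (u, i) => ((u.val + i.val + 1 + k) % 2 = 0 ∧ k < u.val + i.val + 1) ∨
      ((u.val + i.val + 1 + k) % 2 = 1 ∧ ¬ u.val ≤ i.val + 1 + k)

lemma sN_P1 {k : ℕ} (x y : Option (Fin (2 * k + 1) × Fin k))
    (h : (genMyc (SimpleGraph.cycleGraph (2 * k + 1)) k).Adj x y) (hl : lev y = lev x + 1)
    (hs : sN k x) : sN k y := by
  rcases y with _ | ⟨v, j⟩
  · trivial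
  rcases x with _ | ⟨u, i⟩
  · have h1 : j.val + 1 = k + 1 + 1 := hl
    have := j.isLt
    omega
  have h1 : j.val + 1 = i.val + 1 + 1 := hl
  have h2 := h.1
  rw [cg_adj] at h2
  have hu := u.isLt
  have hv := v.isLt
  have hj := j.isLt
  have hs' : ((u.val + i.val + 1 + k) % 2 = 0 ∧ k < u.val + i.val + 1) ∨
      ((u.val + i.val + 1 + k) % 2 = 1 ∧ u.val ≤ i.val + 1 + k) := hs
  show ((v.val + j.val + 1 + k) % 2 = 0 ∧ k < v.val + j.val + 1) ∨
      ((v.val + j.val + 1 + k) % 2 = 1 ∧ v.val ≤ j.val + 1 + k)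
  omega

lemma sN_P2 {k : ℕ} (hk : 1 ≤ k) (x y : Option (Fin (2 * k + 1) × Fin k))
    (h : (genMyc (SimpleGraph.cycleGraph (2 * k + 1)) k).Adj x y) (hx : lev x = 1)
    (hy : lev y = 1) : sN k x ∨ sN k y := by
  rcases x with _ | ⟨u, i⟩
  · left; trivial
  rcases y with _ | ⟨v, j⟩
  · right; trivial
  have h1 : i.val + 1 = 1 := hx
  have h1' : j.val + 1 = 1 := hy
  have h2 := h.1
  rw [cg_adj] at h2
  have hu := u.isLt
  have hv := v.isLt
  show (((u.val + i.val + 1 + k) % 2 = 0 ∧ k < u.val + i.val + 1) ∨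
      ((u.val + i.val + 1 + k) % 2 = 1 ∧ u.val ≤ i.val + 1 + k)) ∨
    (((v.val + j.val + 1 + k) % 2 = 0 ∧ k < v.val + j.val + 1) ∨
      ((v.val + j.val + 1 + k) % 2 = 1 ∧ v.val ≤ j.val + 1 + k))
  omega

lemma gN_step {k : ℕ} {x y : Option (Fin (2 * k + 1) × Fin k)}
    (h : (genMyc (SimpleGraph.cycleGraph (2 * k + 1)) k).Adj x y) (hx : x ≠ none) (hy : y ≠ none)
    (hxy : fst' y = fst' x + 1) :
    (col (sN k) x = col (sN k) y → ¬ gN k x ∧ gN k y) ∧ (gN k x → gN k y) := by
  rcases x with _ | ⟨u, i⟩
  · exact absurd rfl hx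
  rcases y with _ | ⟨v, j⟩
  · exact absurd rfl hy
  have h1 : v.val = u.val + 1 := hxy
  have h2 : (i.val = 0 ∧ j.val = 0) ∨ i.val + 1 = j.val ∨ j.val + 1 = i.val := h.2
  rw [col_eq]
  have hu := u.isLt
  have hv := v.isLt
  have hi := i.isLt
  have hj := j.isLt
  simp only [lev, sN, gN]
  constructor
  · intro h3
    rcases h2 with h2 | h2 | h2 <;> omega
  · rcases h2 with h2 | h2 | h2 <;> omega

lemma gN_wrap {k : ℕ} (hk : 1 ≤ k) {x y : Option (Fin (2 * k + 1) × Fin k)}
    (h : (genMyc (SimpleGraph.cycleGraph (2 * k + 1)) k).Adj x y) (hx : x ≠ none) (hy : y ≠ none)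
    (hx' : fst' x = 2 * k) (hy' : fst' y = 0) : col (sN k) x ≠ col (sN k) y := by
  rcases x with _ | ⟨u, i⟩
  · exact absurd rfl hx
  rcases y with _ | ⟨v, j⟩
  · exact absurd rfl hy
  have h1 : u.val = 2 * k := hx'
  have h1' : v.val = 0 := hy'
  have h2 : (i.val = 0 ∧ j.val = 0) ∨ i.val + 1 = j.val ∨ j.val + 1 = i.val := h.2
  rw [Ne, col_eq]
  have hi := i.isLt
  have hj := j.isLt
  simp only [lev, sN]
  rcases h2 with h2 | h2 | h2 <;> omega

lemma fst'_val {k r : ℕ} {C : Cyc (genMyc (SimpleGraph.cycleGraph (2 * k + 1)) r) (2 * k + 1)}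
    (hnone : ∀ i, C.c i ≠ none) (hfst : ∀ i, ((fst' (C.c i) : ℕ) : ZMod (2 * k + 1)) = i)
    (i : ZMod (2 * k + 1)) : fst' (C.c i) = i.val := by
  have h1 : fst' (C.c i) < 2 * k + 1 := by
    rcases hc : C.c i with _ | ⟨u, l⟩
    · exact absurd hc (hnone i)
    · exact u.isLt
  have h2 := congrArg ZMod.val (hfst i)
  rw [ZMod.val_natCast_of_lt h1] at h2
  exact h2

lemma typeB_balanced {k : ℕ} (hk : 1 ≤ k)
    (C : Cyc (genMyc (SimpleGraph.cycleGraph (2 * k + 1)) k) (2 * k + 1))
    (hnone : ∀ i, C.c i ≠ none) (hfst : ∀ i, ((fst' (C.c i) : ℕ) : ZMod (2 * k + 1)) = i) :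
    Good (col (sN k)) C := by
  have hv := fst'_val hnone hfst
  have step : ∀ i : ZMod (2 * k + 1), i.val < 2 * k →
      (col (sN k) (C.c i) = col (sN k) (C.c (i + 1)) → ¬ gN k (C.c i) ∧ gN k (C.c (i + 1))) ∧
      (gN k (C.c i) → gN k (C.c (i + 1))) := by
    intro i hi
    apply gN_step (C.adj i) (hnone _) (hnone _)
    rw [hv, hv]
    rcases zmod_cases (by omega) i with ⟨h1, h2⟩ | ⟨h1, h2⟩
    · exact h2
    · omega
  have hlt : ∀ i : ZMod (2 * k + 1), col (sN k) (C.c i) = col (sN k) (C.c (i + 1)) →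
      i.val < 2 * k := by
    intro i h
    by_contra hcon
    have := ZMod.val_lt i
    refine gN_wrap hk (C.adj i) (hnone _) (hnone _) ?_ ?_ h
    · rw [hv]; omega
    · rw [hv]
      rcases zmod_cases (by omega) i with ⟨h1, h2⟩ | ⟨h1, h2⟩
      · omega
      · exact h2
  have up : ∀ d (t : ℕ), t + d ≤ 2 * k → gN k (C.c (t : ZMod (2 * k + 1))) →
      gN k (C.c ((t + d : ℕ) : ZMod (2 * k + 1))) := by
    intro d
    induction d with
    | zero => intro t _ h; exact h
    | succ d ih =>
      intro t ht h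
      have h1 := ih t (by omega) h
      have h2 := (step ((t + d : ℕ) : ZMod (2 * k + 1)) (by
        rw [ZMod.val_natCast_of_lt (by omega)]; omega)).2 h1
      have e : ((t + (d + 1) : ℕ) : ZMod (2 * k + 1)) = ((t + d : ℕ) : ZMod (2 * k + 1)) + 1 := by
        push_cast; ring
      rw [e]
      exact h2
  have huniq : ∀ i j : ZMod (2 * k + 1), i.val < j.val →
      col (sN k) (C.c i) = col (sN k) (C.c (i + 1)) →
      col (sN k) (C.c j) = col (sN k) (C.c (j + 1)) → False := by
    intro i j hij h1 h2
    have a1 := (step i (hlt i h1)).1 h1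
    have a2 := (step j (hlt j h2)).1 h2
    apply a2.1
    have := hlt j h2
    have h3 := up (j.val - (i.val + 1)) (i.val + 1) (by omega) (by
      push_cast
      rw [ZMod.natCast_zmod_val]
      exact a1.2)
    have e : i.val + 1 + (j.val - (i.val + 1)) = j.val := by omega
    rw [e, ZMod.natCast_zmod_val] at h3
    exact h3
  intro i j hi hj
  rcases lt_trichotomy i.val j.val with h | h | h
  · exact (huniq i j h hi hj).elim
  · exact ZMod.val_injective _ h
  · exact (huniq j i h hj hi).elim

/-- For all `r, k ≥ 1` the generalized Mycielski graph `M_r(C_{2k+1})` has an orientation in which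
every shortest odd cycle is alternating. -/
theorem result : ∀ r k : ℕ, 1 ≤ r → 1 ≤ k →
    ∃ D : Option (Fin (2 * k + 1) × Fin r) → Option (Fin (2 * k + 1) × Fin r) → Prop,
      IsOrientation (genMyc (SimpleGraph.cycleGraph (2 * k + 1)) r) D ∧
      ∀ (n : ℕ) (C : Cyc (genMyc (SimpleGraph.cycleGraph (2 * k + 1)) r) n),
        IsShortestOdd C → Alternating D C := by
  intro r k hr hk
  -- it is enough to find a colouring
  suffices h : ∃ χ : Option (Fin (2 * k + 1) × Fin r) → Bool,
      ∀ (n : ℕ) (C : Cyc (genMyc (SimpleGraph.cycleGraph (2 * k + 1)) r) n),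
        IsShortestOdd C → Good χ C by
    obtain ⟨χ, hχ⟩ := h
    let e := Fintype.equivFin (Option (Fin (2 * k + 1) × Fin r))
    have he : Function.Injective (fun x => (e x).val) := fun x y h => e.injective (Fin.ext h)
    exact ⟨ori χ (fun x => (e x).val), ori_isOrientation χ _ he,
      fun n C hC => alternating_of_good χ _ he C (hχ n C hC)⟩
  -- cycles through `z`
  have hA : ∀ (s : Option (Fin (2 * k + 1) × Fin r) → Prop) (n : ℕ)
      (C : Cyc (genMyc (SimpleGraph.cycleGraph (2 * k + 1)) r) n), Odd n → n ≤ 2 * r + 1 →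
      (∃ i, C.c i = none) →
      (∀ x y, (genMyc (SimpleGraph.cycleGraph (2 * k + 1)) r).Adj x y →
        lev y = lev x + 1 → s x → s y) →
      (∀ x y, (genMyc (SimpleGraph.cycleGraph (2 * k + 1)) r).Adj x y →
        lev x = 1 → lev y = 1 → s x ∨ s y) → Good (col s) C := by
    rintro s n C hn hle ⟨i, hi⟩ P1 P2
    apply good_of_rot _ C i
    apply typeA (C.rot i) hn hle _ s P1 P2
    show C.c (0 + i) = none
    rw [zero_add]; exact hi
  rcases lt_trichotomy r k with hrk | hrk | hrk
  · refine ⟨col (fun _ => True), ?_⟩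
    rintro n C ⟨hn, hmin⟩
    have hle := hmin (2 * r + 1) ⟨r, rfl⟩ (cyc2 hr hrk.le)
    apply hA _ n C hn hle
    · by_contra hcon
      push Not at hcon
      have := (typeB C hn (by omega) hcon).1
      omega
    · intro x y _ _ _; trivial
    · intro x y _ _ _; left; trivial
  · subst hrk
    refine ⟨col (sN r), ?_⟩
    rintro n C ⟨hn, hmin⟩
    have hle := hmin (2 * r + 1) ⟨r, rfl⟩ (cyc2 hr (le_refl _))
    by_cases hz : ∃ i, C.c i = none
    · exact hA _ n C hn hle hz sN_P1 (sN_P2 hk)
    · push Not at hz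
      exact (typeB C hn hle hz).2 _ (typeB_balanced hk)
  · refine ⟨fun x => decide (fst' x % 2 = 1), ?_⟩
    rintro n C ⟨hn, hmin⟩
    have hle := hmin (2 * k + 1) ⟨k, rfl⟩ (cyc1 hk hr)
    by_cases hz : ∃ i, C.c i = none
    · exfalso
      obtain ⟨i, hi⟩ := hz
      have hno := typeA_len (C.rot i) hn (by
        show C.c (0 + i) = none
        rw [zero_add]; exact hi)
      omega
    · push Not at hz
      apply (typeB C hn hle hz).2
      intro C' hnone hfst
      have hv := fst'_val hnone hfst
      have key : ∀ i : ZMod (2 * k + 1), decide (fst' (C'.c i) % 2 = 1) =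
          decide (fst' (C'.c (i + 1)) % 2 = 1) → i.val = 2 * k := by
        intro i h
        rw [decide_eq_decide, hv, hv] at h
        have := ZMod.val_lt i
        rcases zmod_cases (by omega) i with ⟨h1, h2⟩ | ⟨h1, h2⟩
        · omega
        · omega
      intro i j hi hj
      apply ZMod.val_injective
      rw [key i hi, key j hj]

end Pool.Agent.Results.MP_118fda_co.AlternatingOrientation
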